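import Mathlib
import Pool.Agent.Helper671.UP.PartialSums

set_option autoImplicit false
open Complex Set Filter Metric Topology

namespace Pool.Agent.Results.MP_910507_an.PartialSumOrder

open Pool.Agent.Helper671.UP Pool.Agent.Helper671.UP.Arc

/-- `Λ_n(M)`: the supremum of `|s_n(e^{it})|` over `f ∈ S(M)` and real `t`, where
`s_n(z) = ∑_{k ≤ n} a_k z^k` is the partial sum of the power series of `f`. -/
noncomputable def Lam (n : ℕ) (M : ℝ) : ℝ :=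
  sSup {x : ℝ | ∃ (f : ℂ → ℂ) (a : ℕ → ℂ), InSM M f ∧ PS a f ∧
    ∃ t : ℝ, x = ‖∑ k ∈ Finset.range (n + 1), a k * Complex.exp (t * Complex.I) ^ k‖}

theorem growthSM (f : ℂ → ℂ) (M : ℝ) (hf : InSM M f) (z : ℂ) (hz : ‖z‖ < 1) :
    ‖f z‖ ≤ ‖z‖ / (1 - ‖z‖) ^ 2 := by
  obtain ⟨hd, hinj, h0, h1, hb⟩ := hf
  exact growthS f hd h0 (distortionS f hd h1
    (fun z hz => deriv_ne_zero_of_inj f hd hinj z hz)
    (fun ζ hζ => koebe_trS f hd hinj M hb ζ hζ)) z hz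

theorem coeff_zero (f : ℂ → ℂ) (a : ℕ → ℂ) (hPS : PS a f) (h0 : f 0 = 0) : a 0 = 0 := by
  have h := hPS 0 (by simp)
  have h2 : HasSum (fun n => a n * (0 : ℂ) ^ n) (a 0 * (0 : ℂ) ^ 0) := by
    apply hasSum_single 0
    intro b hb
    rw [zero_pow hb, mul_zero]
  have h3 := h.unique h2
  rw [h0] at h3
  simpa using h3.symm

theorem sum_le_sq (f : ℂ → ℂ) (a : ℕ → ℂ) (M : ℝ) (hf : InSM M f) (hPS : PS a f) (n : ℕ)
    (hn : 2 ≤ n) : ∑ i ∈ Finset.range (n + 1), ‖a i‖ ≤ 5 * (n : ℝ) ^ 2 := by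
  have hg := growthSM f M hf
  obtain ⟨hd, hinj, h0, h1, hb⟩ := hf
  have ha0 := coeff_zero f a hPS h0
  refine sum_norm_le a n hn ?_ ha0
  intro r hr hr1
  refine sum_sq_le3 (fun i => ‖a i‖ ^ 2) (by simp [ha0]) (n + 1) ?_ r hr hr1
  intro ρ hρ hρ1
  refine area_ps_le f a hPS hinj ρ _ hρ hρ1 ?_ (n + 1)
  intro z hz
  refine (hg z (hz.trans_lt hρ1)).trans ?_
  have hp : 0 < 1 - ρ := by linarith
  apply div_le_div₀ hρ.le hz (by positivity)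
  apply pow_le_pow_left₀ hp.le
  linarith

theorem upper (n : ℕ) (hn : 2 ≤ n) (M : ℝ) (x : ℝ)
    (hx : x ∈ {x : ℝ | ∃ (f : ℂ → ℂ) (a : ℕ → ℂ), InSM M f ∧ PS a f ∧
    ∃ t : ℝ, x = ‖∑ k ∈ Finset.range (n + 1), a k * Complex.exp (t * Complex.I) ^ k‖}) :
    x ≤ min ((1 + Real.sqrt 2 / 2) * M) (5 * (n : ℝ) ^ 2) := by
  obtain ⟨f, a, hf, hPS, t, rfl⟩ := hx
  have hnorm : ‖Complex.exp (t * Complex.I)‖ = 1 := Complex.norm_exp_ofReal_mul_I t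
  apply le_min
  · exact partial_le_M f a M hf hPS n _ hnorm.le
  · refine (norm_sum_le _ _).trans ?_
    refine le_trans (le_of_eq ?_) (sum_le_sq f a M hf hPS n hn)
    apply Finset.sum_congr rfl
    intro k _
    rw [norm_mul, norm_pow, hnorm, one_pow, mul_one]

/-- main theorem -/
theorem result (n : ℕ) (hn : 2 ≤ n) (M : ℝ) (hM : 1 < M) :
    min M ((n : ℝ) ^ 2) / 12 ≤ Lam n M ∧
      Lam n M ≤ min ((1 + Real.sqrt 2 / 2) * M) (5 * (n : ℝ) ^ 2) := by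
  obtain ⟨f, a, hf, hPS, hbig⟩ := exists_big_sum M hM n hn
  have hmem : ‖∑ k ∈ Finset.range (n + 1), a k‖ ∈
      {x : ℝ | ∃ (f : ℂ → ℂ) (a : ℕ → ℂ), InSM M f ∧ PS a f ∧
    ∃ t : ℝ, x = ‖∑ k ∈ Finset.range (n + 1), a k * Complex.exp (t * Complex.I) ^ k‖} :=
    ⟨f, a, hf, hPS, 0, by simp⟩
  refine ⟨?_, ?_⟩
  · exact hbig.trans (le_csSup ⟨_, fun x hx => upper n hn M x hx⟩ hmem)
  · exact csSup_le ⟨_, hmem⟩ (fun x hx => upper n hn M x hx)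

end Pool.Agent.Results.MP_910507_an.PartialSumOrder
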